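import Pool.Agent.H49.G.R_seed8.H373R2.T7.PB2

set_option autoImplicit false

namespace Pool.Agent.H491R3.GB

open Finset Polynomial
open Pool.Agent.H373R2.T7

/-- the number of ordered representations of `n` as a sum of two primes -/
def gb (n : ℕ) : ℕ := ((range (n + 1)).filter (fun p : ℕ => p.Prime ∧ (n - p).Prime)).card

noncomputable def F0 : Fin 0 → ℤ[X] := fun i => i.elim0

theorem prod_eF (m : ℤ) : ∏ i, (PArg.eF F0 i).eval m = m := by
  rw [Fin.prod_univ_succ]
  simp [PArg.eF]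

theorem noFixed (n : ℕ) (hn : Even n) : TB.NoFixed (PArg.eF F0) X n := by
  intro p hp
  have hp2 := hp.two_le
  by_cases h : (p : ℤ) ∣ (n : ℤ) - 1
  · refine ⟨2, ?_⟩
    rw [prod_eF, eval_X]
    intro hd
    have hpz : Prime (p : ℤ) := Nat.prime_iff_prime_int.1 hp
    rcases hpz.dvd_or_dvd hd with h1 | h1
    · have h2 : p ∣ 2 := by exact_mod_cast h1
      have h3 : p = 2 := (Nat.prime_dvd_prime_iff_eq hp Nat.prime_two).1 h2
      subst h3
      obtain ⟨k, hk⟩ := hn
      omega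
    · have h2 : (p : ℤ) ∣ 1 := by
        have := dvd_sub h h1
        ring_nf at this
        exact this
      have h3 : (p : ℤ) ≤ 1 := Int.le_of_dvd one_pos h2
      omega
  · refine ⟨1, ?_⟩
    rw [prod_eF, eval_X, one_mul]
    exact h

theorem XCount_eq (n x : ℕ) (hn : n ≤ x) : SHN.XCount X n x = n - 1 := by
  unfold SHN.XCount
  have : (Icc 1 x).filter (fun m : ℕ => 0 < (n : ℤ) - (X : ℤ[X]).eval (m : ℤ)) = Icc 1 (n - 1) := by
    ext m
    rw [mem_filter, mem_Icc, mem_Icc, eval_X]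
    omega
  rw [this]
  simp

theorem omega_le (n p : ℕ) (hp : p.Prime) :
    TB.omegaN (PArg.eF F0) X n p ≤ 2 ∧ (p ∣ n → TB.omegaN (PArg.eF F0) X n p ≤ 1) := by
  have hsub : (range p).filter (fun r : ℕ => (p : ℤ) ∣ (∏ i, (PArg.eF F0 i).eval (r : ℤ)) *
      (n - (X : ℤ[X]).eval (r : ℤ))) ⊆ {0, n % p} := by
    intro r hr
    rw [mem_filter, mem_range, prod_eF, eval_X] at hr
    obtain ⟨h1, h2⟩ := hr
    have hpz : Prime (p : ℤ) := Nat.prime_iff_prime_int.1 hp
    rw [mem_insert, mem_singleton]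
    rcases hpz.dvd_or_dvd h2 with h3 | h3
    · left
      have h4 : p ∣ r := by exact_mod_cast h3
      exact Nat.eq_zero_of_dvd_of_lt h4 h1
    · right
      have h4 : (r : ℤ) ≡ n [ZMOD p] := (Int.modEq_iff_dvd).2 h3
      have h5 : r ≡ n [MOD p] := (Int.natCast_modEq_iff).1 h4
      have h6 : r % p = n % p := h5
      rw [Nat.mod_eq_of_lt h1] at h6
      exact h6
  unfold TB.omegaN
  constructor
  · exact (card_le_card hsub).trans (card_le_two)
  · intro hd
    rw [Nat.mod_eq_zero_of_dvd hd] at hsub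
    refine (card_le_card hsub).trans ?_
    simp

/-- comparison factors -/
noncomputable def HH (k : ℕ) : ℝ := if k = 2 then 2 else 1 - 1 / ((k : ℝ) - 1) ^ 2

theorem prodHH (z : ℕ) (hz : 2 ≤ z) : ∏ k ∈ Icc 2 z, HH k = (z : ℝ) / ((z : ℝ) - 1) := by
  induction z, hz using Nat.le_induction with
  | base => simp [HH]; norm_num
  | succ z hz ih =>
    rw [Finset.prod_Icc_succ_top (by omega : 2 ≤ z + 1), ih]
    unfold HH
    rw [if_neg (by omega)]
    have hz0 : (0 : ℝ) < z := by exact_mod_cast (by omega : 0 < z)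
    have hz1 : (0 : ℝ) < (z : ℝ) - 1 := by
      have : (2 : ℝ) ≤ z := by exact_mod_cast hz
      linarith
    push_cast
    have e : (z : ℝ) + 1 - 1 = z := by ring
    rw [e]
    field_simp
    ring

theorem sing_ge (n z : ℕ) (hn : Even n) (hz : 2 ≤ z) :
    1 ≤ ∏ p ∈ (Icc 1 z).filter Nat.Prime,
      (1 - (TB.omegaN (PArg.eF F0) X n p : ℝ) / p) / (1 - 1 / (p : ℝ)) ^ 2 := by
  have h1 : (1 : ℝ) ≤ ∏ k ∈ Icc 2 z, HH k := by
    rw [prodHH z hz, le_div_iff₀]
    · linarith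
    · have : (2 : ℝ) ≤ z := by exact_mod_cast hz
      linarith
  refine h1.trans ?_
  rw [← prod_filter_mul_prod_filter_not (Icc 2 z) Nat.Prime]
  have hfil : (Icc 2 z).filter Nat.Prime = (Icc 1 z).filter Nat.Prime := by
    ext p
    rw [mem_filter, mem_filter, mem_Icc, mem_Icc]
    constructor
    · rintro ⟨h2, h3⟩
      exact ⟨⟨by omega, h2.2⟩, h3⟩
    · rintro ⟨h2, h3⟩
      exact ⟨⟨h3.two_le, h2.2⟩, h3⟩
  rw [hfil]
  have hH0 : ∀ k : ℕ, 2 ≤ k → 0 ≤ HH k := by
    intro k hk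
    unfold HH
    split_ifs with h
    · norm_num
    · have h3 : (3 : ℝ) ≤ k := by exact_mod_cast (by omega : 3 ≤ k)
      have h4 : (1 : ℝ) ≤ ((k : ℝ) - 1) ^ 2 := by nlinarith
      have h5 : 1 / ((k : ℝ) - 1) ^ 2 ≤ 1 := by
        rw [div_le_one (by positivity)]
        exact h4
      linarith
  have h2 : ∏ k ∈ (Icc 2 z).filter (fun k => ¬ k.Prime), HH k ≤ 1 := by
    apply prod_le_one
    · intro k hk
      rw [mem_filter, mem_Icc] at hk
      exact hH0 k hk.1.1
    · intro k hk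
      rw [mem_filter, mem_Icc] at hk
      unfold HH
      rw [if_neg]
      · have : 0 ≤ 1 / ((k : ℝ) - 1) ^ 2 := by positivity
        linarith
      · rintro rfl
        exact hk.2 Nat.prime_two
  have h3 : 0 ≤ ∏ p ∈ (Icc 1 z).filter Nat.Prime, HH p := by
    apply prod_nonneg
    intro p hp
    rw [mem_filter] at hp
    exact hH0 p hp.2.two_le
  have h4 : ∏ p ∈ (Icc 1 z).filter Nat.Prime, HH p ≤ ∏ p ∈ (Icc 1 z).filter Nat.Prime,
      (1 - (TB.omegaN (PArg.eF F0) X n p : ℝ) / p) / (1 - 1 / (p : ℝ)) ^ 2 := by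
    apply prod_le_prod
    · intro p hp
      rw [mem_filter] at hp
      exact hH0 p hp.2.two_le
    · intro p hp
      rw [mem_filter] at hp
      obtain ⟨h5, h6⟩ := omega_le n p hp.2
      unfold HH
      split_ifs with h
      · subst h
        have h7 := h6 hn.two_dvd
        have h8 : (TB.omegaN (PArg.eF F0) X n 2 : ℝ) ≤ 1 := by exact_mod_cast h7
        rw [le_div_iff₀ (by norm_num)]
        push_cast
        linarith
      · have hp3 : (3 : ℝ) ≤ p := by
          have := hp.2.two_le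
          exact_mod_cast (by omega : 3 ≤ p)
        have h8 : (TB.omegaN (PArg.eF F0) X n p : ℝ) ≤ 2 := by exact_mod_cast h5
        have hp0 : (0 : ℝ) < p := by linarith
        have hp1 : (0 : ℝ) < (p : ℝ) - 1 := by linarith
        have e1 : 1 - 1 / (p : ℝ) = ((p : ℝ) - 1) / p := by field_simp
        rw [e1, le_div_iff₀ (by positivity)]
        have e2 : (1 - 1 / ((p : ℝ) - 1) ^ 2) * (((p : ℝ) - 1) / p) ^ 2 = 1 - 2 / p := by
          field_simp
          ring
        rw [e2]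
        have h9 : (TB.omegaN (PArg.eF F0) X n p : ℝ) / p ≤ 2 / p :=
          div_le_div_of_nonneg_right h8 hp0.le
        linarith
  calc (∏ p ∈ (Icc 1 z).filter Nat.Prime, HH p) *
        ∏ k ∈ (Icc 2 z).filter (fun k => ¬ k.Prime), HH k
      ≤ (∏ p ∈ (Icc 1 z).filter Nat.Prime, HH p) * 1 := mul_le_mul_of_nonneg_left h2 h3
    _ = _ := mul_one _
    _ ≤ _ := h4

theorem TP_ge (n z x : ℕ) (hn : Even n) (hz : 2 ≤ z) (hnx : n ≤ x) :
    ((n - 1 : ℕ) : ℝ) ≤ PB.TP F0 X n z z x := by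
  unfold PB.TP
  rw [Finset.Ioc_self, filter_empty, prod_empty, mul_one, XCount_eq n x hnx, ← prod_inv_distrib,
    mul_assoc, ← prod_mul_distrib]
  have e : ∏ p ∈ (Icc 1 z).filter Nat.Prime, ((1 - 1 / (p : ℝ))⁻¹ *
      ((1 - (TB.omegaN (PArg.eF F0) X n p : ℝ) / p) / (1 - 1 / (p : ℝ)))) =
      ∏ p ∈ (Icc 1 z).filter Nat.Prime,
      (1 - (TB.omegaN (PArg.eF F0) X n p : ℝ) / p) / (1 - 1 / (p : ℝ)) ^ 2 := by
    apply prod_congr rfl
    intro p _
    rw [inv_mul_eq_div, div_div, sq]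
  rw [e]
  exact le_mul_of_one_le_right (Nat.cast_nonneg _) (sing_ge n z hn hz)

theorem WP_le (n z x : ℕ) (hn : 2 ≤ n) :
    PB.WP F0 X n z x ≤ (gb n : ℝ) * Real.log n ^ 2 := by
  classical
  unfold PB.WP gb
  have hln : 0 ≤ Real.log n := Real.log_nonneg (by exact_mod_cast (by omega : 1 ≤ n))
  have hsub : (Icc 1 x).filter (fun p : ℕ => p.Prime ∧
      ((n : ℤ) - (X : ℤ[X]).eval (p : ℤ)).toNat.Prime ∧ TB.Rough F0 z p) ⊆
      (range (n + 1)).filter (fun p : ℕ => p.Prime ∧ (n - p).Prime) := by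
    intro p hp
    rw [mem_filter, mem_Icc, eval_X] at hp
    obtain ⟨-, h1, h2, -⟩ := hp
    have h3 := h2.two_le
    have h4 : ((n : ℤ) - (p : ℤ)).toNat = n - p := by omega
    rw [h4] at h2
    rw [mem_filter, mem_range]
    exact ⟨by omega, h1, h2⟩
  calc _ ≤ ∑ _p ∈ (Icc 1 x).filter (fun p : ℕ => p.Prime ∧
        ((n : ℤ) - (X : ℤ[X]).eval (p : ℤ)).toNat.Prime ∧ TB.Rough F0 z p), Real.log n ^ 2 := by
        apply sum_le_sum
        intro p hp
        have hp' := hsub hp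
        rw [mem_filter, mem_range] at hp'
        obtain ⟨h1, h2, h3⟩ := hp'
        have h4 := h2.two_le
        have h5 := h3.two_le
        rw [eval_X, sq]
        have e : (((n : ℤ) - (p : ℤ) : ℤ) : ℝ) = ((n - p : ℕ) : ℝ) := by
          rw [Nat.cast_sub (by omega)]
          push_cast
          ring
        rw [e]
        apply mul_le_mul
        · apply Real.log_le_log
          · exact_mod_cast (by omega : 0 < p)
          · exact_mod_cast (by omega : p ≤ n)
        · apply Real.log_le_log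
          · exact_mod_cast (by omega : 0 < n - p)
          · exact_mod_cast (by omega : n - p ≤ n)
        · apply Real.log_nonneg
          exact_mod_cast (by omega : 1 ≤ n - p)
        · exact hln
    _ = (((Icc 1 x).filter (fun p : ℕ => p.Prime ∧
        ((n : ℤ) - (X : ℤ[X]).eval (p : ℤ)).toNat.Prime ∧ TB.Rough F0 z p)).card : ℝ) *
        Real.log n ^ 2 := by
        rw [sum_const, nsmul_eq_mul]
    _ ≤ _ := by
        apply mul_le_mul_of_nonneg_right _ (by positivity)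
        exact_mod_cast card_le_card hsub

theorem log_pow_le (m : ℕ) : ∃ N0 : ℕ, ∀ N : ℕ, N0 ≤ N → Real.log N ^ m ≤ N := by
  have h := (Real.isLittleO_pow_log_id_atTop (n := m)).bound (show (0 : ℝ) < 1 by norm_num)
  have h2 := tendsto_natCast_atTop_atTop (R := ℝ) |>.eventually h
  obtain ⟨N0, h3⟩ := Filter.eventually_atTop.1 h2
  refine ⟨N0, fun N hN => ?_⟩
  have h4 := h3 N hN
  rw [one_mul, Real.norm_eq_abs, Real.norm_eq_abs, id] at h4
  exact (le_abs_self _).trans (h4.trans (by rw [abs_of_nonneg (Nat.cast_nonneg N)]))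

theorem log_ge (c : ℝ) : ∃ N0 : ℕ, ∀ N : ℕ, N0 ≤ N → c ≤ Real.log N := by
  have h2 := (Real.tendsto_log_atTop.comp (tendsto_natCast_atTop_atTop (R := ℝ))).eventually
    (Filter.eventually_ge_atTop c)
  obtain ⟨N0, h3⟩ := Filter.eventually_atTop.1 h2
  exact ⟨N0, fun N hN => h3 N hN⟩

/-- the classical exceptional set bound -/
theorem exc (U : ℕ) : ∃ N0 : ℕ, ∀ N : ℕ, N0 ≤ N →
    (((Icc 1 N).filter (fun n : ℕ => N < 4 * n ∧ Even n ∧
      (gb n : ℝ) < 1 / 2 * (n : ℝ) / Real.log n ^ 2)).card : ℝ) ≤ N / Real.log N ^ U := by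
  classical
  obtain ⟨K, hK, h⟩ := PB.pb_main 1 (1 / 8) (by norm_num)
  obtain ⟨B0, hB0⟩ := h 0 F0 (fun i => i.elim0) (fun i => i.elim0) X (by simp) (by simp)
    (by simp) 1 U (1 / 8) le_rfl (by norm_num)
  obtain ⟨x0, hx0⟩ := hB0 (B0 + 1)
  obtain ⟨n1, hn1⟩ := log_pow_le ((B0 + 1) * K)
  obtain ⟨n2, hn2⟩ := log_ge 3
  refine ⟨max (max x0 n1) (max n2 16), fun N hN => ?_⟩
  have b1 : x0 ≤ N := le_trans (le_trans (le_max_left _ _) (le_max_left _ _)) hN
  have b2 : n1 ≤ N := le_trans (le_trans (le_max_right _ _) (le_max_left _ _)) hN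
  have b3 : n2 ≤ N := le_trans (le_trans (le_max_left _ _) (le_max_right _ _)) hN
  have b4 : 16 ≤ N := le_trans (le_trans (le_max_right _ _) (le_max_right _ _)) hN
  have hL := hn2 N b3
  set L := Real.log N with hLd
  set z : ℕ := ⌈L ^ B0⌉₊ + 1 with hz
  have hLB : 1 ≤ L ^ B0 := one_le_pow₀ (by linarith)
  have hz1 : L ^ B0 ≤ z := by
    rw [hz]
    push_cast
    have := Nat.le_ceil (L ^ B0)
    linarith
  have hz2 : (z : ℝ) ≤ L ^ (B0 + 1) := by
    rw [hz]
    push_cast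
    have h1 := (Nat.ceil_lt_add_one (show 0 ≤ L ^ B0 by linarith)).le
    rw [pow_succ]
    nlinarith
  have hz3 : 2 ≤ z := by
    have : 1 ≤ ⌈L ^ B0⌉₊ := Nat.one_le_ceil_iff.2 (by linarith)
    omega
  have hzK : z ^ K ≤ N := by
    have h1 : ((z : ℝ)) ^ K ≤ (L ^ (B0 + 1)) ^ K := pow_le_pow_left₀ (Nat.cast_nonneg _) hz2 K
    rw [← pow_mul] at h1
    have h2 := h1.trans (hn1 N b2)
    exact_mod_cast h2
  have hfin := hx0 N b1 N (by simp) (by simp) z z hz1 hz2 le_rfl hzK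
  refine le_trans ?_ hfin
  have hsub : (Icc 1 N).filter (fun n : ℕ => N < 4 * n ∧ Even n ∧
      (gb n : ℝ) < 1 / 2 * (n : ℝ) / Real.log n ^ 2) ⊆
      (Icc 1 N).filter (fun n : ℕ => ¬ (TB.NoFixed (PArg.eF F0) X n →
        (1 / 8 : ℝ) * N ≤ SHN.XCount X n N →
        |PB.WP F0 X n z N - PB.TP F0 X n z z N| ≤ 1 / 8 * PB.TP F0 X n z z N)) := by
    intro n hn
    rw [mem_filter, mem_Icc] at hn
    obtain ⟨⟨hn1, hnN⟩, hn4, hev, hg⟩ := hn
    rw [mem_filter, mem_Icc]
    refine ⟨⟨hn1, hnN⟩, fun himp => ?_⟩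
    have hNn : (N : ℝ) < 4 * n := by exact_mod_cast hn4
    have hNr : (16 : ℝ) ≤ N := by exact_mod_cast b4
    have hc1 : ((n - 1 : ℕ) : ℝ) = (n : ℝ) - 1 := by
      rw [Nat.cast_sub hn1]
      push_cast
      ring
    have h1 := himp (noFixed n hev) (by
      rw [XCount_eq n N hnN, hc1]
      linarith)
    have hT := TP_ge n z N hev hz3 hnN
    rw [hc1] at hT
    have hW := WP_le n z N (by omega)
    rw [abs_le] at h1
    have hln : 0 < Real.log n := Real.log_pos (by linarith)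
    rw [lt_div_iff₀ (by positivity)] at hg
    linarith [h1.1]
  exact_mod_cast card_le_card hsub

end Pool.Agent.H491R3.GB
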